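import Pool.Agent.Helper88.Gap.Fin

/-! The Robin gap of the unit interval is bounded below; translation of the min-max values. -/

set_option autoImplicit false

open MeasureTheory Set Filter Topology

namespace Pool.Agent.H232Z.RGap

open Pool.Agent.Helper88.Gap

lemma ioo_eq (k : ℝ → ℝ) {a b : ℝ} (h : a ≤ b) : ∫ x in Ioo a b, k x = ∫ x in a..b, k x := by
  rw [intervalIntegral.integral_of_le h, integral_Ioc_eq_integral_Ioo]

lemma poinc {f : ℝ → ℝ} (hf : ContDiff ℝ 1 f) (h0 : f 0 = 0) :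
    ∫ x in Ioo (-(1 / 2 : ℝ)) (1 / 2), f x ^ 2 ≤
      4 * ∫ x in Ioo (-(1 / 2 : ℝ)) (1 / 2), deriv f x ^ 2 := by
  have c0 := hf.continuous
  have c1 : Continuous (deriv f) := hf.continuous_deriv le_rfl
  have d := hf.differentiable (by norm_num)
  rw [ioo_eq _ (by norm_num), ioo_eq _ (by norm_num)]
  have ck : Continuous fun t => f t ^ 2 / 2 + 2 * deriv f t ^ 2 := by fun_prop
  have ftc : ∀ a b : ℝ, ∫ t in a..b, 2 * f t * deriv f t = f b ^ 2 - f a ^ 2 := by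
    intro a b
    refine intervalIntegral.integral_eq_sub_of_hasDerivAt (f := fun t => f t ^ 2) (fun t _ => ?_)
      (Continuous.intervalIntegrable (by fun_prop) _ _)
    refine HasDerivAt.congr_deriv ((d t).hasDerivAt.pow 2) ?_
    simp
  have sub : ∀ a b : ℝ, -(1 / 2) ≤ a → a ≤ b → b ≤ 1 / 2 →
      ∫ t in a..b, (f t ^ 2 / 2 + 2 * deriv f t ^ 2) ≤
        ∫ t in (-(1 / 2 : ℝ))..(1 / 2), (f t ^ 2 / 2 + 2 * deriv f t ^ 2) := fun a b h1 h2 h3 =>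
    intervalIntegral.integral_mono_interval h1 h2 h3
      (Eventually.of_forall fun t => by positivity) (ck.intervalIntegrable _ _)
  have pt : ∀ x ∈ Icc (-(1 / 2 : ℝ)) (1 / 2), f x ^ 2 ≤
      ∫ t in (-(1 / 2 : ℝ))..(1 / 2), (f t ^ 2 / 2 + 2 * deriv f t ^ 2) := by
    intro x hx
    rcases le_total 0 x with h | h
    · refine le_trans ?_ (sub 0 x (by norm_num) h hx.2)
      have := intervalIntegral.integral_mono_on (μ := volume) h
        (f := fun t => 2 * f t * deriv f t) (Continuous.intervalIntegrable (by fun_prop) _ _)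
        (ck.intervalIntegrable _ _) (fun t _ => by nlinarith [sq_nonneg (f t - 2 * deriv f t)])
      rw [ftc, h0] at this
      linarith
    · refine le_trans ?_ (sub x 0 hx.1 h (by norm_num))
      have := intervalIntegral.integral_mono_on (μ := volume) h
        (f := fun t => -(2 * f t * deriv f t)) (Continuous.intervalIntegrable (by fun_prop) _ _)
        (ck.intervalIntegrable _ _) (fun t _ => by nlinarith [sq_nonneg (f t + 2 * deriv f t)])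
      rw [intervalIntegral.integral_neg, ftc, h0] at this
      linarith
  have := intervalIntegral.integral_mono_on (μ := volume) (by norm_num)
    (Continuous.intervalIntegrable (by fun_prop) _ _) (continuous_const.intervalIntegrable _ _) pt
  rw [intervalIntegral.integral_const,
    intervalIntegral.integral_add (Continuous.intervalIntegrable (by fun_prop) _ _)
      (Continuous.intervalIntegrable (by fun_prop) _ _), intervalIntegral.integral_div,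
    intervalIntegral.integral_const_mul] at this
  norm_num at this ⊢
  linarith

lemma quad {u w : ℝ → ℝ} (hu : Continuous u) (hw : Continuous w) (a b : ℝ) :
    ∫ x in Ioo (-(1 / 2 : ℝ)) (1 / 2), (a * u x + b * w x) ^ 2 =
      a ^ 2 * (∫ x in Ioo (-(1 / 2 : ℝ)) (1 / 2), u x ^ 2) +
      2 * a * b * (∫ x in Ioo (-(1 / 2 : ℝ)) (1 / 2), u x * w x) +
      b ^ 2 * ∫ x in Ioo (-(1 / 2 : ℝ)) (1 / 2), w x ^ 2 := by
  simp only [ioo_eq _ (show -(1 / 2 : ℝ) ≤ 1 / 2 by norm_num)]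
  rw [← intervalIntegral.integral_const_mul, ← intervalIntegral.integral_const_mul,
    ← intervalIntegral.integral_const_mul,
    ← intervalIntegral.integral_add (Continuous.intervalIntegrable (by fun_prop) _ _)
      (Continuous.intervalIntegrable (by fun_prop) _ _),
    ← intervalIntegral.integral_add (Continuous.intervalIntegrable (by fun_prop) _ _)
      (Continuous.intervalIntegrable (by fun_prop) _ _)]
  congr 1
  funext x
  ring

lemma posdef {A B D a b : ℝ} (hA : 0 ≤ A) (hD : 0 ≤ D) (h : 0 < A * D - B ^ 2)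
    (hab : a ≠ 0 ∨ b ≠ 0) : 0 < a ^ 2 * A + 2 * a * b * B + b ^ 2 * D := by
  have hA' : 0 < A := by
    rcases hA.eq_or_lt with h1 | h1
    · rw [← h1] at h; nlinarith [sq_nonneg B]
    · exact h1
  by_cases hb : b = 0
  · subst hb
    have : a ≠ 0 := by simpa using hab
    have : 0 < a ^ 2 * A := by positivity
    linarith
  · have h1 : 0 < b ^ 2 * (A * D - B ^ 2) := by positivity
    have h2 : A * (a ^ 2 * A + 2 * a * b * B + b ^ 2 * D) =
        (a * A + b * B) ^ 2 + b ^ 2 * (A * D - B ^ 2) := by ring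
    have h3 : 0 < A * (a ^ 2 * A + 2 * a * b * B + b ^ 2 * D) := by
      rw [h2]; positivity
    exact (pos_iff_pos_of_mul_pos h3).1 hA'

lemma glb_ex {s : Set ℝ} {b : ℝ} (hb : b ∈ lowerBounds s) (hne : s.Nonempty) : ∃ x, IsGLB s x :=
  Real.exists_isGLB hne ⟨b, hb⟩

lemma lub_ex {s : Set ℝ} {b : ℝ} (hb : b ∈ upperBounds s) (hne : s.Nonempty) : ∃ x, IsLUB s x :=
  Real.exists_isLUB hne ⟨b, hb⟩

lemma mu0_ex {α : ℝ} (hα : 0 < α) : ∃ mu0 : ℝ, mu0 ≤ 2 * α ∧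
    IsGLB {t : ℝ | ∃ u : ℝ → ℝ, ContDiff ℝ 1 u ∧
      0 < (∫ x in Set.Ioo (-(1 / 2 : ℝ)) (1 / 2), u x ^ 2) ∧
      t = ((∫ x in Set.Ioo (-(1 / 2 : ℝ)) (1 / 2), deriv u x ^ 2) +
            α * (u (-(1 / 2)) ^ 2 + u (1 / 2) ^ 2))
          / (∫ x in Set.Ioo (-(1 / 2 : ℝ)) (1 / 2), u x ^ 2)} mu0 := by
  have m : 2 * α ∈ {t : ℝ | ∃ u : ℝ → ℝ, ContDiff ℝ 1 u ∧
      0 < (∫ x in Set.Ioo (-(1 / 2 : ℝ)) (1 / 2), u x ^ 2) ∧
      t = ((∫ x in Set.Ioo (-(1 / 2 : ℝ)) (1 / 2), deriv u x ^ 2) +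
            α * (u (-(1 / 2)) ^ 2 + u (1 / 2) ^ 2))
          / (∫ x in Set.Ioo (-(1 / 2 : ℝ)) (1 / 2), u x ^ 2)} := by
    refine ⟨fun _ => 1, contDiff_const, ?_, ?_⟩
    · rw [ioo_eq _ (by norm_num)]; norm_num
    · rw [ioo_eq _ (by norm_num), ioo_eq _ (by norm_num)]; norm_num; ring
  obtain ⟨mu, h⟩ := Real.exists_isGLB ⟨_, m⟩ ⟨0, by
    rintro t ⟨u, -, h1, rfl⟩
    have : 0 ≤ ∫ x in Set.Ioo (-(1 / 2 : ℝ)) (1 / 2), deriv u x ^ 2 :=
      integral_nonneg fun x => sq_nonneg _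
    positivity⟩
  exact ⟨mu, h.1 m, h⟩

lemma mu1_ex {α : ℝ} (hα : 0 < α) : ∃ mu1 : ℝ, 1 / 4 ≤ mu1 ∧
    IsGLB {t : ℝ | ∃ u w : ℝ → ℝ, ContDiff ℝ 1 u ∧ ContDiff ℝ 1 w ∧
      0 < (∫ x in Set.Ioo (-(1 / 2 : ℝ)) (1 / 2), u x ^ 2) *
          (∫ x in Set.Ioo (-(1 / 2 : ℝ)) (1 / 2), w x ^ 2) -
          (∫ x in Set.Ioo (-(1 / 2 : ℝ)) (1 / 2), u x * w x) ^ 2 ∧
      IsLUB {s : ℝ | ∃ a b : ℝ, (a ≠ 0 ∨ b ≠ 0) ∧
        s = ((∫ x in Set.Ioo (-(1 / 2 : ℝ)) (1 / 2),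
                  deriv (fun y => a * u y + b * w y) x ^ 2) +
              α * ((a * u (-(1 / 2)) + b * w (-(1 / 2))) ^ 2 +
                   (a * u (1 / 2) + b * w (1 / 2)) ^ 2))
            / (∫ x in Set.Ioo (-(1 / 2 : ℝ)) (1 / 2),
                  (a * u x + b * w x) ^ 2)} t} mu1 := by
  have lb : (1 / 4 : ℝ) ∈ lowerBounds {t : ℝ | ∃ u w : ℝ → ℝ, ContDiff ℝ 1 u ∧ ContDiff ℝ 1 w ∧
      0 < (∫ x in Set.Ioo (-(1 / 2 : ℝ)) (1 / 2), u x ^ 2) *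
          (∫ x in Set.Ioo (-(1 / 2 : ℝ)) (1 / 2), w x ^ 2) -
          (∫ x in Set.Ioo (-(1 / 2 : ℝ)) (1 / 2), u x * w x) ^ 2 ∧
      IsLUB {s : ℝ | ∃ a b : ℝ, (a ≠ 0 ∨ b ≠ 0) ∧
        s = ((∫ x in Set.Ioo (-(1 / 2 : ℝ)) (1 / 2),
                  deriv (fun y => a * u y + b * w y) x ^ 2) +
              α * ((a * u (-(1 / 2)) + b * w (-(1 / 2))) ^ 2 +
                   (a * u (1 / 2) + b * w (1 / 2)) ^ 2))
            / (∫ x in Set.Ioo (-(1 / 2 : ℝ)) (1 / 2),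
                  (a * u x + b * w x) ^ 2)} t} := by
    rintro t ⟨u, w, hu, hw, hG, ht⟩
    obtain ⟨a, b, hab, h0⟩ : ∃ a b : ℝ, (a ≠ 0 ∨ b ≠ 0) ∧ a * u 0 + b * w 0 = 0 := by
      by_cases h : u 0 = 0
      · exact ⟨1, 0, Or.inl one_ne_zero, by simp [h]⟩
      · exact ⟨w 0, -u 0, Or.inr (neg_ne_zero.2 h), by ring⟩
    refine le_trans ?_ (ht.1 ⟨a, b, hab, rfl⟩)
    have hN : 0 < ∫ x in Set.Ioo (-(1 / 2 : ℝ)) (1 / 2), (a * u x + b * w x) ^ 2 := by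
      rw [quad hu.continuous hw.continuous]
      exact posdef (integral_nonneg fun x => sq_nonneg _) (integral_nonneg fun x => sq_nonneg _)
        hG hab
    rw [le_div_iff₀ hN]
    have := poinc (f := fun y => a * u y + b * w y)
      ((contDiff_const.mul hu).add (contDiff_const.mul hw)) h0
    have h2 : 0 ≤ α * ((a * u (-(1 / 2)) + b * w (-(1 / 2))) ^ 2 +
      (a * u (1 / 2) + b * w (1 / 2)) ^ 2) := by positivity
    linarith
  have e1 : ∫ x in Set.Ioo (-(1 / 2 : ℝ)) (1 / 2), (1 : ℝ) ^ 2 = 1 := by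
    rw [ioo_eq _ (by norm_num)]; norm_num
  have e2 : ∫ x in Set.Ioo (-(1 / 2 : ℝ)) (1 / 2), x ^ 2 = 1 / 12 := by
    rw [ioo_eq _ (by norm_num), integral_pow]; norm_num
  have e3 : ∫ x in Set.Ioo (-(1 / 2 : ℝ)) (1 / 2), (1 : ℝ) * x = 0 := by
    rw [ioo_eq _ (by norm_num)]; simp
  obtain ⟨t, ht⟩ := Real.exists_isLUB (s := {s : ℝ | ∃ a b : ℝ, (a ≠ 0 ∨ b ≠ 0) ∧
        s = ((∫ x in Set.Ioo (-(1 / 2 : ℝ)) (1 / 2),
                  deriv (fun y => a * (1 : ℝ) + b * y) x ^ 2) +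
              α * ((a * 1 + b * (-(1 / 2))) ^ 2 + (a * 1 + b * (1 / 2)) ^ 2))
            / (∫ x in Set.Ioo (-(1 / 2 : ℝ)) (1 / 2), (a * 1 + b * x) ^ 2)})
    ⟨_, 1, 0, Or.inl one_ne_zero, rfl⟩ ⟨12 + 6 * α, by
      rintro s ⟨a, b, hab, rfl⟩
      have q := quad (u := fun _ => 1) (w := fun x => x) continuous_const continuous_id a b
      rw [e1, e2, e3] at q
      have hN : 0 < a ^ 2 * 1 + 2 * a * b * 0 + b ^ 2 * (1 / 12) :=
        posdef (by norm_num) (by norm_num) (by norm_num) hab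
      have dd : ∀ x : ℝ, deriv (fun y => a * (1 : ℝ) + b * y) x = b := fun x => by
        simpa using (((hasDerivAt_id x).const_mul b).const_add (a * 1)).deriv
      simp only [dd]
      rw [q, div_le_iff₀ hN, ioo_eq _ (by norm_num)]
      norm_num
      nlinarith [sq_nonneg a, sq_nonneg b, mul_nonneg hα.le (sq_nonneg a)]⟩
  obtain ⟨mu, h⟩ := glb_ex lb ⟨t, fun _ => 1, fun x => x, contDiff_const, contDiff_id,
    by rw [e1, e2, e3]; norm_num, ht⟩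
  exact ⟨mu, h.2 lb, h⟩

lemma pos_mass {Ω : Set (En 2)} (ho : IsOpen Ω) (hne : Ω.Nonempty) (hg : Good (volume.restrict Ω))
    (s t : ℝ) (hst : s ^ 2 + t ^ 2 ≠ 0) :
    0 < Nf (volume.restrict Ω) (s • (fun _ => (1 : ℝ)) + t • fun p : En 2 => p 0) := by
  have c0 := coord_cont 0
  have cf : Continuous fun p : En 2 => (s + t * p 0) ^ 2 := by fun_prop
  have e : Nf (volume.restrict Ω) (s • (fun _ => (1 : ℝ)) + t • fun p : En 2 => p 0) =
      ∫ p in Ω, (s + t * p 0) ^ 2 := by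
    unfold Nf; congr 1; funext p; simp
  rw [e, setIntegral_pos_iff_support_of_nonneg_ae (Eventually.of_forall fun p => sq_nonneg _)
    (hg _ cf)]
  refine (cf.isOpen_support.inter ho).measure_pos volume ?_
  obtain ⟨p, hp⟩ := hne
  by_cases h : s + t * p 0 = 0
  · obtain ⟨δ, hδ, hb⟩ := Metric.isOpen_iff.1 ho p hp
    refine ⟨P2 (p 0 + δ / 2) (p 1), ?_, hb ?_⟩
    · have ht : t ≠ 0 := by
        rintro rfl
        apply hst
        have : s = 0 := by simpa using h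
        simp [this]
      have : s + t * (p 0 + δ / 2) = t * (δ / 2) := by linarith
      simp only [Function.mem_support, P2_0, this]
      positivity
    · rw [Metric.mem_ball]
      apply lt_of_pow_lt_pow_left₀ 2 hδ.le
      rw [dist2]
      simp only [P2_0, P2_1]
      nlinarith
  · exact ⟨p, pow_ne_zero 2 h, hp⟩

theorem plane {α η : ℝ} (hα : 0 < α) (hη : 0 < η) : ∃ (Ω : Set (En 2)) (V : En 2 → ℝ)
    (lam0 lam1 : ℝ), IsOpen Ω ∧ Convex ℝ Ω ∧ Bornology.IsBounded Ω ∧ Ω.Nonempty ∧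
    ConvexOn ℝ Ω V ∧ ContinuousOn V (closure Ω) ∧ Metric.diam Ω = 1 ∧ lam1 - lam0 ≤ η ∧
    IsGLB {t : ℝ | ∃ u : En 2 → ℝ, ContDiff ℝ 1 u ∧ 0 < (∫ x in Ω, u x ^ 2) ∧
      t = ((∫ x in Ω, (‖fderiv ℝ u x‖ ^ 2 + V x * u x ^ 2)) +
            α * (∫ x in frontier Ω, u x ^ 2 ∂(Measure.hausdorffMeasure (1 : ℝ))))
          / (∫ x in Ω, u x ^ 2)} lam0 ∧
    IsGLB {t : ℝ | ∃ u w : En 2 → ℝ, ContDiff ℝ 1 u ∧ ContDiff ℝ 1 w ∧
      0 < (∫ x in Ω, u x ^ 2) * (∫ x in Ω, w x ^ 2) - (∫ x in Ω, u x * w x) ^ 2 ∧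
      IsLUB {s : ℝ | ∃ a b : ℝ, (a ≠ 0 ∨ b ≠ 0) ∧
        s = ((∫ x in Ω, (‖fderiv ℝ (fun y => a * u y + b * w y) x‖ ^ 2 +
                  V x * (a * u x + b * w x) ^ 2)) +
              α * (∫ x in frontier Ω, (a * u x + b * w x) ^ 2
                  ∂(Measure.hausdorffMeasure (1 : ℝ))))
            / (∫ x in Ω, (a * u x + b * w x) ^ 2)} t} lam1 := by
  obtain ⟨L, ε, κ, h, hdiam, hgap⟩ := deep hα (half_pos hη)
  have hp := h.pot hα.le
  obtain ⟨u, w, hu, hw, hQ, hN⟩ := gap_space h.good h.surf_good hp hα.le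
    (Λ := lamf (muH L ε κ) (surf (Hs L ε κ)) (vp α ε) α 1 + η)
    (lset2_ne contDiff_const x0_contDiff (pos_mass (Hs_isOpen L ε κ) h.nonempty h.good))
    (by linarith)
  have hA : 0 < Nf (muH L ε κ) u := by simpa using hN 1 0 (by norm_num)
  have hG : 0 < Nf (muH L ε κ) u * Nf (muH L ε κ) w - (∫ p, u p * w p ∂(muH L ε κ)) ^ 2 := by
    have h2 := hN (∫ p, u p * w p ∂(muH L ε κ)) (-Nf (muH L ε κ) u) (by
      have : 0 < (-Nf (muH L ε κ) u) ^ 2 := by rw [neg_sq]; positivity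
      positivity)
    rw [Nf_quad h.good hu.continuous hw.continuous] at h2
    have h3 : 0 < Nf (muH L ε κ) u * (Nf (muH L ε κ) u * Nf (muH L ε κ) w -
        (∫ p, u p * w p ∂(muH L ε κ)) ^ 2) := by linarith
    exact (pos_iff_pos_of_mul_pos h3).1 hA
  have lb0 : lamf (muH L ε κ) (surf (Hs L ε κ)) (vp α ε) α 1 ∈ lowerBounds
      {t : ℝ | ∃ u : En 2 → ℝ, ContDiff ℝ 1 u ∧ 0 < Nf (muH L ε κ) u ∧
        t = Qf (muH L ε κ) (surf (Hs L ε κ)) (vp α ε) α u / Nf (muH L ε κ) u} := by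
    rintro t ⟨v, hv, h1, rfl⟩
    rw [le_div_iff₀ h1]
    exact lam1_le' h.good hp hα.le hv
  obtain ⟨lam0, h0⟩ := glb_ex lb0 ⟨_, u, hu, hA, rfl⟩
  have ub : lamf (muH L ε κ) (surf (Hs L ε κ)) (vp α ε) α 1 + η ∈ upperBounds
      {s : ℝ | ∃ a b : ℝ, (a ≠ 0 ∨ b ≠ 0) ∧
        s = Qf (muH L ε κ) (surf (Hs L ε κ)) (vp α ε) α (a • u + b • w) /
          Nf (muH L ε κ) (a • u + b • w)} := by
    rintro s ⟨a, b, hab, rfl⟩
    rw [div_le_iff₀ (hN a b (by rcases hab with h | h <;> positivity))]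
    exact hQ a b
  obtain ⟨t, ht⟩ := lub_ex ub ⟨_, 1, 0, Or.inl one_ne_zero, rfl⟩
  have m1 : t ∈ {t : ℝ | ∃ u w : En 2 → ℝ, ContDiff ℝ 1 u ∧ ContDiff ℝ 1 w ∧
      0 < Nf (muH L ε κ) u * Nf (muH L ε κ) w - (∫ p, u p * w p ∂(muH L ε κ)) ^ 2 ∧
      IsLUB {s : ℝ | ∃ a b : ℝ, (a ≠ 0 ∨ b ≠ 0) ∧
        s = Qf (muH L ε κ) (surf (Hs L ε κ)) (vp α ε) α (a • u + b • w) /
          Nf (muH L ε κ) (a • u + b • w)} t} := ⟨u, w, hu, hw, hG, ht⟩
  obtain ⟨lam1, h1⟩ := Real.exists_isGLB ⟨_, m1⟩ ⟨0, by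
    rintro t ⟨u, w, hu, hw, -, ht⟩
    refine le_trans ?_ (ht.1 ⟨1, 0, Or.inl one_ne_zero, rfl⟩)
    exact div_nonneg (Qf_nonneg h.good hp hα.le
      ((contDiff_const.smul hu).add (contDiff_const.smul hw))) (Nf_nonneg _ _)⟩
  refine ⟨Hs L ε κ, vp α ε, lam0, lam1, Hs_isOpen L ε κ, h.convex, h.bounded, h.nonempty,
    ⟨h.convex, fun x _ y _ a b _ _ _ => le_of_eq ?_⟩, (vp_cont α ε).continuousOn, hdiam, ?_, h0, h1⟩
  · simp only [vp, PiLp.add_apply, PiLp.smul_apply, smul_eq_mul]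
    ring
  · linarith [h0.2 lb0, h1.1 m1, ht.2 ub]

end Pool.Agent.H232Z.RGap
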